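import Pool.Agent.U762.DZ.Stm
import Pool.Agent.U741.HT.CHE

set_option autoImplicit false

/-! # Project DZ, package DEN (helper741): the changes have density zero -/

open MeasureTheory ProbabilityTheory Filter Finset Topology

namespace Pool.Agent.U741.DZ

open Pool.Agent.U839.Gb

/-- bound for the mean -/
theorem mean_bound (q : ℤ → ℝ) (A : ℝ) (hA : 0 < A) (h1 : ∀ x, q x ≤ 1)
    (h2 : ∀ x : ℤ, q x ≤ A / Real.log (2 + |(x : ℝ)|)) (s : ℕ) (hs : 2 ≤ s) :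
    ∑ x ∈ Icc (-(2 ^ s : ℤ)) (2 ^ s), q x ≤ (6 + 24 * A) * (2 ^ s / s) := by
  obtain ⟨h, hh⟩ : ∃ h, h = s / 2 := ⟨_, rfl⟩
  have hh1 : 1 ≤ h := by omega
  have hh2 : s ≤ 2 * h + 1 := by omega
  have hh3 : 2 * h ≤ s := by omega
  have hsR : (0 : ℝ) < s := by exact_mod_cast (by omega : 0 < s)
  have hhR : (1 : ℝ) ≤ h := by exact_mod_cast hh1
  have hlog : (1 : ℝ) / 2 ≤ Real.log 2 := by
    have := Real.log_two_gt_d9
    linarith
  have hlog0 : 0 < (h : ℝ) * Real.log 2 := by positivity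
  have hq : ∀ x ∈ Icc (-(2 ^ s : ℤ)) (2 ^ s), q x ≤
      (if x ∈ Icc (-(2 ^ h : ℤ)) (2 ^ h) then (1 : ℝ) else 0) + A / (h * Real.log 2) := by
    intro x _
    by_cases hx : x ∈ Icc (-(2 ^ h : ℤ)) (2 ^ h)
    · rw [if_pos hx]
      have := h1 x
      have h3 : 0 ≤ A / (h * Real.log 2) := by positivity
      linarith
    · rw [if_neg hx, zero_add]
      refine (h2 x).trans ?_
      have h3 : (2 ^ h : ℤ) < |x| := by
        by_contra hc
        exact hx (mem_Icc.2 (abs_le.1 (not_lt.1 hc)))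
      have h4 : (2 : ℝ) ^ h < |(x : ℝ)| := by exact_mod_cast h3
      have h5 : (h : ℝ) * Real.log 2 ≤ Real.log (2 + |(x : ℝ)|) := by
        rw [← Real.log_pow]
        exact Real.log_le_log (by positivity) (by linarith)
      exact div_le_div_of_nonneg_left hA.le hlog0 h5
  refine (sum_le_sum hq).trans ?_
  rw [sum_add_distrib, sum_const, nsmul_eq_mul, ← sum_filter, sum_const, nsmul_eq_mul, mul_one]
  have c1 : (((Icc (-(2 ^ s : ℤ)) (2 ^ s)).filter (fun x => x ∈ Icc (-(2 ^ h : ℤ)) (2 ^ h))).card : ℝ) ≤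
      3 * 2 ^ h := by
    have h3 : ((Icc (-(2 ^ s : ℤ)) (2 ^ s)).filter (fun x => x ∈ Icc (-(2 ^ h : ℤ)) (2 ^ h))).card ≤
        (Icc (-(2 ^ h : ℤ)) (2 ^ h)).card := card_le_card (fun x hx => (mem_filter.1 hx).2)
    rw [Int.card_Icc] at h3
    have h4 : ((2 : ℤ) ^ h + 1 - -(2 ^ h)).toNat = 2 * 2 ^ h + 1 := by
      have : (2 : ℤ) ^ h + 1 - -(2 ^ h) = ((2 * 2 ^ h + 1 : ℕ) : ℤ) := by push_cast; ring
      rw [this]
      exact Int.toNat_natCast _
    rw [h4] at h3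
    have h5 : 1 ≤ 2 ^ h := Nat.one_le_two_pow
    have h6 : ((Icc (-(2 ^ s : ℤ)) (2 ^ s)).filter (fun x => x ∈ Icc (-(2 ^ h : ℤ)) (2 ^ h))).card ≤
        3 * 2 ^ h := by omega
    exact_mod_cast h6
  have c2 : ((Icc (-(2 ^ s : ℤ)) (2 ^ s)).card : ℝ) ≤ 3 * 2 ^ s := by
    rw [Int.card_Icc]
    have h4 : ((2 : ℤ) ^ s + 1 - -(2 ^ s)).toNat = 2 * 2 ^ s + 1 := by
      have : (2 : ℤ) ^ s + 1 - -(2 ^ s) = ((2 * 2 ^ s + 1 : ℕ) : ℤ) := by push_cast; ring
      rw [this]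
      exact Int.toNat_natCast _
    rw [h4]
    have h5 : 1 ≤ 2 ^ s := Nat.one_le_two_pow
    have h6 : 2 * 2 ^ s + 1 ≤ 3 * 2 ^ s := by omega
    exact_mod_cast h6
  have c3 : (3 : ℝ) * 2 ^ h ≤ 6 * (2 ^ s / s) := by
    rw [mul_div_assoc', le_div_iff₀ hsR]
    have h3 : s * 2 ^ h ≤ 2 * 2 ^ s := by
      have h4 : h + 1 ≤ 2 ^ h := Nat.lt_two_pow_self
      have h5 : s ≤ 2 * 2 ^ h := by omega
      calc s * 2 ^ h ≤ (2 * 2 ^ h) * 2 ^ h := Nat.mul_le_mul_right _ h5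
        _ = 2 * 2 ^ (2 * h) := by ring
        _ ≤ 2 * 2 ^ s := Nat.mul_le_mul_left _ (Nat.pow_le_pow_right (by norm_num) hh3)
    have h4 : (s : ℝ) * 2 ^ h ≤ 2 * 2 ^ s := by exact_mod_cast h3
    nlinarith
  have c4 : (3 : ℝ) * 2 ^ s * (A / (h * Real.log 2)) ≤ 24 * A * (2 ^ s / s) := by
    have h3 : 1 / ((h : ℝ) * Real.log 2) ≤ 8 / s := by
      rw [div_le_div_iff₀ hlog0 hsR, one_mul]
      have h4 : (s : ℝ) ≤ 2 * h + 1 := by exact_mod_cast hh2
      nlinarith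
    have h4 : A / (h * Real.log 2) = A * (1 / (h * Real.log 2)) := by ring
    rw [h4]
    have h5 : (3 : ℝ) * 2 ^ s * (A * (1 / (h * Real.log 2))) ≤ 3 * 2 ^ s * (A * (8 / s)) := by
      gcongr
    refine h5.trans (le_of_eq ?_)
    ring
  have c5 : ((Icc (-(2 ^ s : ℤ)) (2 ^ s)).card : ℝ) * (A / (h * Real.log 2)) ≤
      3 * 2 ^ s * (A / (h * Real.log 2)) :=
    mul_le_mul_of_nonneg_right c2 (by positivity)
  have e : (6 + 24 * A) * ((2 : ℝ) ^ s / s) = 6 * (2 ^ s / s) + 24 * A * (2 ^ s / s) := by ring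
  rw [e]
  linarith

theorem sq_le (s : ℕ) : s ^ 2 ≤ 2 * 2 ^ s := by
  by_cases hs : s ≤ 3
  · interval_cases s <;> norm_num
  · obtain ⟨k, rfl⟩ : ∃ k, s = k + 4 := ⟨s - 4, by omega⟩
    clear hs
    induction k with
    | zero => norm_num
    | succ k ih =>
      have h1 : 2 ^ (k + 1 + 4) = 2 * 2 ^ (k + 4) := by ring
      have h2 : (k + 1 + 4) ^ 2 ≤ 2 * (k + 4) ^ 2 :=
        Nat.le.intro (k := k ^ 2 + 6 * k + 7) (by ring)
      rw [h1]
      omega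

/-- **Package DEN.** -/
theorem t_DEN : Pool.Agent.U762.DZ.S_DEN := by
  classical
  intro μ hμ A hA hlaw
  obtain ⟨P, hP⟩ : ∃ P : Measure (ℤ → ℤ), P = Measure.infinitePi μ := ⟨_, rfl⟩
  have hPp : IsProbabilityMeasure P := by rw [hP]; infer_instance
  rw [← hP]
  obtain ⟨e, -⟩ : ∃ e : ℤ ≃ ℕ, e = Equiv.intEquivNat := ⟨_, rfl⟩
  obtain ⟨F, hF⟩ : ∃ F : ℕ → Set (ℤ → ℤ), ∀ a, F a = {ω | ω (e.symm a) ≠ 0} := ⟨_, fun _ => rfl⟩
  have hFm : ∀ a, MeasurableSet (F a) := by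
    intro a
    rw [hF]
    change MeasurableSet ((fun ω : ℤ → ℤ => ω (e.symm a)) ⁻¹' ({0}ᶜ : Set ℤ))
    exact measurable_pi_apply _ (MeasurableSet.of_discrete)
  have hPF : ∀ a, P (F a) = μ (e.symm a) ({0}ᶜ) := by
    intro a
    have h1 : F a = Set.pi (({e.symm a} : Finset ℤ) : Set ℤ) (fun _ => ({0}ᶜ : Set ℤ)) := by
      rw [hF]
      ext ω
      simp
    rw [h1, hP, Measure.infinitePi_pi _ (fun _ _ => MeasurableSet.of_discrete), prod_singleton]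
  have hFi : iIndepSet F P := by
    rw [iIndepSet_iff_meas_biInter hFm]
    intro s
    have h1 : (⋂ a ∈ s, F a) = Set.pi ((s.map e.symm.toEmbedding : Finset ℤ) : Set ℤ)
        (fun _ => ({0}ᶜ : Set ℤ)) := by
      ext ω
      simp only [hF, Set.mem_iInter, Set.mem_pi, Finset.coe_map, Set.mem_image, Finset.mem_coe,
        forall_exists_index, and_imp, Set.mem_compl_iff, Set.mem_singleton_iff, Set.mem_ofPred_eq,
        ne_eq]
      exact ⟨fun h i a ha hai => hai ▸ h a ha, fun h a ha => h _ a ha rfl⟩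
    rw [h1, hP, Measure.infinitePi_pi _ (fun _ _ => MeasurableSet.of_discrete), prod_map, ← hP]
    refine prod_congr rfl fun a _ => ?_
    rw [hPF]
    rfl
  obtain ⟨q, hq⟩ : ∃ q : ℤ → ℝ, ∀ x, q x = (μ x).real ({0}ᶜ) := ⟨_, fun _ => rfl⟩
  have hPq : ∀ a, P.real (F a) = q (e.symm a) := by
    intro a
    rw [hq, measureReal_def, measureReal_def, hPF]
  have hq0 : ∀ x, 0 ≤ q x := fun x => by rw [hq]; exact measureReal_nonneg
  have hq1 : ∀ x, q x ≤ 1 := fun x => by rw [hq]; exact measureReal_le_one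
  have hq2 : ∀ x : ℤ, q x ≤ A / Real.log (2 + |(x : ℝ)|) := by
    intro x
    rw [hq, probReal_compl_eq_one_sub MeasurableSet.of_discrete]
    have := hlaw x
    linarith
  obtain ⟨I, hI⟩ : ∃ I : ℕ → Finset ℤ, ∀ s, I s = Icc (-(2 ^ s : ℤ)) (2 ^ s) := ⟨_, fun _ => rfl⟩
  have hmean : ∀ s, ∑ a ∈ (I s).map e.toEmbedding, P.real (F a) = ∑ x ∈ I s, q x := by
    intro s
    rw [sum_map]
    refine sum_congr rfl fun x _ => ?_
    rw [Equiv.coe_toEmbedding, hPq, e.symm_apply_apply]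
  have hSS : ∀ s ω, SS F ((I s).map e.toEmbedding) ω = (((I s).filter (fun x => ω x ≠ 0)).card : ℝ) := by
    intro s ω
    unfold SS
    rw [Finset.sum_apply, sum_map, card_filter]
    push_cast
    refine sum_congr rfl fun x _ => ?_
    rw [Equiv.coe_toEmbedding, hF, e.symm_apply_apply, Set.indicator_apply]
    rfl
  have hB : ∀ s : ℕ, P {ω | (1 + 1) * ∑ x ∈ I s, q x + 2 * s ≤ SS F ((I s).map e.toEmbedding) ω} ≤
      ENNReal.ofReal (Real.exp (-(s : ℝ))) := by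
    intro s
    have h1 := Pool.Agent.U741.HT.up' F hFm hFi ((I s).map e.toEmbedding) 1 (2 * s) zero_le_one le_rfl
    rw [hmean] at h1
    rw [ENNReal.le_ofReal_iff_toReal_le (measure_ne_top _ _) (Real.exp_pos _).le]
    refine h1.trans (le_of_eq ?_)
    congr 1
    ring
  have hsum : ∑' s : ℕ, P {ω | (1 + 1) * ∑ x ∈ I s, q x + 2 * s ≤
      SS F ((I s).map e.toEmbedding) ω} ≠ ⊤ := by
    refine ne_top_of_le_ne_top ?_ (ENNReal.tsum_le_tsum hB)
    exact Real.summable_exp_neg_nat.tsum_ofReal_ne_top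
  filter_upwards [ae_eventually_notMem hsum] with ω hω
  obtain ⟨S₀, hS₀⟩ := eventually_atTop.1 hω
  obtain ⟨S, hS⟩ : ∃ S, S = max S₀ 2 := ⟨_, rfl⟩
  have hSS₀ : S₀ ≤ S := hS ▸ le_max_left _ _
  have hS2 : 2 ≤ S := hS ▸ le_max_right _ _
  obtain ⟨C, hC⟩ : ∃ C : ℝ, C = 2 * (6 + 24 * A) + 4 := ⟨_, rfl⟩
  have hC0 : 0 < C := by rw [hC]; positivity
  have hbig : ∀ s : ℕ, S ≤ s → (((I s).filter (fun x => ω x ≠ 0)).card : ℝ) ≤ C * (2 ^ s / s) := by
    intro s hs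
    have h1 := not_le.1 (hS₀ s (hSS₀.trans hs))
    rw [hSS] at h1
    have h2 := mean_bound q A hA hq1 hq2 s (hS2.trans hs)
    rw [← hI] at h2
    have hsR : (0 : ℝ) < s := by exact_mod_cast (by omega : 0 < s)
    have h3 : (s : ℝ) ≤ 2 * (2 ^ s / s) := by
      rw [mul_div_assoc', le_div_iff₀ hsR]
      have := sq_le s
      have h4 : (s : ℝ) ^ 2 ≤ 2 * 2 ^ s := by exact_mod_cast this
      nlinarith
    rw [hC]
    nlinarith
  refine ⟨2 * C + 3 * 2 ^ S, fun X hX => ?_⟩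
  have hX0 : 0 < X := by linarith
  have hlX : 0 < Real.log X := Real.log_pos (by linarith)
  -- the dyadic scale
  obtain ⟨s, hs1, hs2⟩ : ∃ s : ℕ, (2 : ℝ) ^ s ≤ X ∧ X < 2 ^ (s + 1) :=
    exists_nat_pow_near (by linarith) (by norm_num)
  have hsub : ∀ t : ℕ, X ≤ 2 ^ t → (({x : ℤ | |(x : ℝ)| ≤ X ∧ ω x ≠ 0}.ncard : ℕ) : ℝ) ≤
      ((I t).filter (fun x => ω x ≠ 0)).card := by
    intro t ht
    have h0 : {x : ℤ | |(x : ℝ)| ≤ X ∧ ω x ≠ 0}.ncard ≤ ((I t).filter (fun x => ω x ≠ 0)).card := by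
      rw [← Set.ncard_coe_finset]
      refine Set.ncard_le_ncard ?_ (Finset.finite_toSet _)
      rintro x ⟨hx1, hx2⟩
      rw [Finset.mem_coe, mem_filter, hI, mem_Icc]
      have h3 : |(x : ℝ)| ≤ 2 ^ t := hx1.trans ht
      have h4 : |x| ≤ 2 ^ t := by exact_mod_cast h3
      exact ⟨abs_le.1 h4, hx2⟩
    exact_mod_cast h0
  by_cases hcase : S ≤ s + 1
  · have h1 := (hsub (s + 1) hs2.le).trans (hbig (s + 1) hcase)
    refine h1.trans ?_
    have hsR : (0 : ℝ) < ((s + 1 : ℕ) : ℝ) := by positivity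
    have h2 : Real.log X ≤ ((s + 1 : ℕ) : ℝ) := by
      have h3 : Real.log X ≤ Real.log (2 ^ (s + 1)) := Real.log_le_log hX0 hs2.le
      rw [Real.log_pow] at h3
      have h4 : Real.log 2 ≤ 1 := by
        have := Real.log_two_lt_d9
        linarith
      nlinarith
    have h3 : (2 : ℝ) ^ (s + 1) ≤ 2 * X := by
      rw [pow_succ]
      linarith
    have h4 : (2 : ℝ) ^ (s + 1) / ((s + 1 : ℕ) : ℝ) ≤ 2 * X / Real.log X :=
      div_le_div₀ (by positivity) h3 hlX h2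
    have h5 : C * ((2 : ℝ) ^ (s + 1) / ((s + 1 : ℕ) : ℝ)) ≤ C * (2 * X / Real.log X) :=
      mul_le_mul_of_nonneg_left h4 hC0.le
    refine h5.trans ?_
    have h6 : C * (2 * X / Real.log X) = 2 * C * X / Real.log X := by ring
    rw [h6]
    apply div_le_div_of_nonneg_right _ hlX.le
    have : (0 : ℝ) ≤ 3 * 2 ^ S * X := by positivity
    nlinarith
  · have hX2 : X ≤ 2 ^ S := by
      refine hs2.le.trans (pow_le_pow_right₀ (by norm_num) (by omega))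
    have h1 := hsub S hX2
    have h2 : (((I S).filter (fun x => ω x ≠ 0)).card : ℝ) ≤ 3 * 2 ^ S := by
      have h3 : ((I S).filter (fun x => ω x ≠ 0)).card ≤ 3 * 2 ^ S := by
        refine (card_filter_le _ _).trans ?_
        rw [hI, Int.card_Icc]
        have h4 : ((2 : ℤ) ^ S + 1 - -(2 ^ S)).toNat = 2 * 2 ^ S + 1 := by
          have : (2 : ℤ) ^ S + 1 - -(2 ^ S) = ((2 * 2 ^ S + 1 : ℕ) : ℤ) := by push_cast; ring
          rw [this]
          exact Int.toNat_natCast _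
        rw [h4]
        have h5 : 1 ≤ 2 ^ S := Nat.one_le_two_pow
        omega
      exact_mod_cast h3
    refine (h1.trans h2).trans ?_
    rw [le_div_iff₀ hlX]
    have h3 : Real.log X ≤ X := (Real.log_le_sub_one_of_pos hX0).trans (by linarith)
    have h4 : (3 : ℝ) * 2 ^ S * Real.log X ≤ 3 * 2 ^ S * X := mul_le_mul_of_nonneg_left h3 (by positivity)
    have h5 : 0 ≤ C * X := by positivity
    nlinarith

end Pool.Agent.U741.DZ
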